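import Pool.Agent.Lib.MP_52aaf2_al.Main

/-!
# Free subgroups generated by `x + 1` and germs built from algebraic functions and real powers
-/

open MP52aaf2

/-- Let `α` be the germ of `x + 1`, let `S` be a set of positive reals and let `β` be a germ in the
group generated by all algebraic germs and the germs `x ^ s`, `s ∈ S`, that is not algebraic.
Then `α` and `β` freely generate `⟨α, β⟩`, unless for some `k ∈ ℤ` the germ `γ = α ^ k β` is
conjugate in that group to a germ `c x ^ r` with `r` irrational, in the multiplicative group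
generated by `S` and the positive rationals, and with `r ^ n` rational and `γ ^ n` algebraic for
some `n ≥ 2`; in the latter case `α, β` freely generate `⟨α, β⟩` if and only if the algebraic germs
`α, γ ^ n` freely generate `⟨α, γ ^ n⟩`. -/
theorem Pool.Agent.Results.MP_52aaf2_al.AlgebraicAndPowers.result :
    ∀ S : Set ℝ, (∀ s ∈ S, 0 < s) → ∀ β ∈ algPow S, ¬ IsAlgGerm β →
      FreePair alpha β ∨
        ∃ (k : ℤ) (n : ℕ) (c r : ℝ) (g m : GermGroup), 2 ≤ n ∧ 0 < c ∧ 0 < r ∧
          (∃ u ∈ expGroup S, (u : ℝ) = r) ∧ Irrational r ∧ (∃ q : ℚ, (q : ℝ) = r ^ n) ∧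
          g ∈ algPow S ∧ IsMonGerm c r m ∧ alpha ^ k * β = g * m * g⁻¹ ∧
          IsAlgGerm ((alpha ^ k * β) ^ n) ∧
          (FreePair alpha β ↔ FreePair alpha ((alpha ^ k * β) ^ n)) :=
  fun _ hS _ hβ hna => main_dichotomy hS hβ hna
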