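import Pool.Agent.Lib.MP_52aaf2_al.EX.Fin

/-!
# Free subgroups generated by `x + 1` and a germ algebraic over `k(x, e^{λx})`
-/

open Filter Topology

open MP52aaf2 (GermGroup germ alpha FreePair IsAlgGerm)

/-- Let `λ > 0` and let `k` be a subfield of `ℝ` such that `e^λ` is transcendental over `k` (for
example `λ = 1` and `k = ℚ`). Let `β` be an orientation-preserving homeomorphism of `ℝ` which
near `+∞` satisfies a nontrivial polynomial equation `Q(x, e^{λx}, β(x)) = 0` with coefficients in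
`k`, and no nontrivial polynomial equation `Q(x, β(x)) = 0` with real coefficients.

1. If `β` satisfies no nontrivial real polynomial equation `Q(e^{λx}, β(x)) = 0` near `+∞`, then
`x + 1` and `β` are free generators of a free group.

2. If `β` satisfies such an equation, then `β ∘ (x + 1) ∘ β⁻¹` is an algebraic germ, and `x + 1`
and `β` are free generators if and only if `x + 1` and `β ∘ (x + 1) ∘ β⁻¹` are. -/
theorem Pool.Agent.Results.MP_52aaf2_al.ExponentialGerms.result :
    ∀ lam : ℝ, 0 < lam → ∀ k : Subfield ℝ, Transcendental k (Real.exp lam) → ∀ β : ℝ ≃o ℝ,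
      (∃ Q : MvPolynomial (Fin 3) k, Q ≠ 0 ∧
        ∀ᶠ x in atTop, MvPolynomial.aeval ![x, Real.exp (lam * x), β x] Q = 0) →
      (¬ ∃ Q : MvPolynomial (Fin 2) ℝ, Q ≠ 0 ∧
        ∀ᶠ x in atTop, MvPolynomial.aeval ![x, β x] Q = 0) →
      ((¬ ∃ Q : MvPolynomial (Fin 2) ℝ, Q ≠ 0 ∧
          ∀ᶠ x in atTop, MvPolynomial.aeval ![Real.exp (lam * x), β x] Q = 0) →
        FreePair alpha (germ β)) ∧
      ((∃ Q : MvPolynomial (Fin 2) ℝ, Q ≠ 0 ∧
          ∀ᶠ x in atTop, MvPolynomial.aeval ![Real.exp (lam * x), β x] Q = 0) →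
        IsAlgGerm (germ β * alpha * (germ β)⁻¹) ∧
          (FreePair alpha (germ β) ↔ FreePair alpha (germ β * alpha * (germ β)⁻¹))) := by
  intro lam hlam k hk β hQ h1
  exact ⟨fun h2 => MP52exp.free_of_both hlam hk hQ h1 h2, fun h2 => MP52exp.exp_case hlam h2⟩
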