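import Pool.Agent.Lib.MP_52aaf2_al.LX.Fin

/-!
# Free subgroups generated by `x + 1` and a germ algebraic over `ℝ(x, e^{h(x)})` or `ℝ(x, log h(x))`
-/

open Filter Topology

open MP52aaf2 (GermGroup germ alpha FreePair IsAlgGerm)

/-- Let `h` be an orientation-preserving homeomorphism of `ℝ` that is algebraic near `+∞`
(`Q(x, h(x)) = 0` near `+∞` for a nonzero real polynomial `Q`), and let `β` be one that is not.

1. If `β` is algebraic over `ℝ(x, e^{h(x)})`, i.e. `Q(x, e^{h(x)}, β(x)) = 0` near `+∞` for a nonzero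
real polynomial `Q`, and `h` is not affine near `+∞`, then `x + 1` and `β` are free generators.

2. If `β` is algebraic over `ℝ(x, log h(x))`, then `x + 1` and `β` are free generators, unless
`β = a log h(x) + c` near `+∞` with real constants `a, c`; in this case `β⁻¹ ∘ (x + 1) ∘ β` is an
algebraic germ, and `x + 1` and `β` are free generators if and only if `x + 1` and
`β⁻¹ ∘ (x + 1) ∘ β` are.

3. If `β` is algebraic over `ℝ(x, log x)`, then `x + 1` and `β` are free generators if and only if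
`β` is not `a log x + c` near `+∞`. -/
theorem Pool.Agent.Results.MP_52aaf2_al.ExponentsAndLogarithms.result :
    ∀ h β : ℝ ≃o ℝ,
      (∃ Q : MvPolynomial (Fin 2) ℝ, Q ≠ 0 ∧
        ∀ᶠ x in atTop, MvPolynomial.aeval ![x, h x] Q = 0) →
      (¬ ∃ Q : MvPolynomial (Fin 2) ℝ, Q ≠ 0 ∧
        ∀ᶠ x in atTop, MvPolynomial.aeval ![x, β x] Q = 0) →
      ((∃ Q : MvPolynomial (Fin 3) ℝ, Q ≠ 0 ∧
          ∀ᶠ x in atTop, MvPolynomial.aeval ![x, Real.exp (h x), β x] Q = 0) →
        (¬ ∃ a c : ℝ, ∀ᶠ x in atTop, h x = a * x + c) →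
          FreePair alpha (germ β)) ∧
      ((∃ Q : MvPolynomial (Fin 3) ℝ, Q ≠ 0 ∧
          ∀ᶠ x in atTop, MvPolynomial.aeval ![x, Real.log (h x), β x] Q = 0) →
        ((¬ ∃ a c : ℝ, ∀ᶠ x in atTop, β x = a * Real.log (h x) + c) →
          FreePair alpha (germ β)) ∧
        ((∃ a c : ℝ, ∀ᶠ x in atTop, β x = a * Real.log (h x) + c) →
          IsAlgGerm ((germ β)⁻¹ * alpha * germ β) ∧
            (FreePair alpha (germ β) ↔ FreePair alpha ((germ β)⁻¹ * alpha * germ β)))) ∧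
      ((∃ Q : MvPolynomial (Fin 3) ℝ, Q ≠ 0 ∧
          ∀ᶠ x in atTop, MvPolynomial.aeval ![x, Real.log x, β x] Q = 0) →
        (FreePair alpha (germ β) ↔
          ¬ ∃ a c : ℝ, ∀ᶠ x in atTop, β x = a * Real.log x + c)) := by
  intro h β hh h0
  exact ⟨fun h1 ha => MP52exp.s_caseA hh ha h0 h1,
    fun h1 => ⟨fun ha => MP52exp.s_caseB hh ha h0 h1, fun ha => MP52exp.s_caseC hh ha⟩,
    fun h1 => MP52exp.s_caseD h0 h1⟩
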