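import Pool.Agent.Lib.MP_52aaf2_al.Poly.PCubic

/-!
# Free subgroups generated by `x + 1` and germs built from affine maps and one polynomial
-/

open Polynomial MP52poly

open MP52aaf2 (GermGroup alpha)

/-- Let `β` be a real polynomial of odd degree `d ≥ 3` with positive leading coefficient, such that
* the Galois group of `β(Y) - X` over `ℂ(X)` is the full symmetric group (it has order `d!`), or
* `β` is not a composition of two complex polynomials of degree at least two and some fibre of `β`
  over a complex number has exactly `d - 1` points, or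
* `β` is a Chebyshev polynomial, or
* `β` is a cubic polynomial which is not of the form `b (x - h) ^ 3 + e`.

Let `b` be the germ of `β` and `γ` any germ in the group generated by `b` and all affine germs.
Then `x + 1` and `γ` freely generate a free group if and only if `γ` is not affine. -/
theorem Pool.Agent.Results.MP_52aaf2_al.PolynomialGerms.result :
    ∀ β : ℝ[X], Odd β.natDegree → 3 ≤ β.natDegree → 0 < β.leadingCoeff →
      (Nat.card (MonodromyGroup (β.map (algebraMap ℝ ℂ))) = β.natDegree.factorial ∨
        ((∀ g h : ℂ[X], β.map (algebraMap ℝ ℂ) = g.comp h → g.natDegree ≤ 1 ∨ h.natDegree ≤ 1) ∧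
          ∃ v : ℂ, {x : ℂ | aeval x β = v}.ncard = β.natDegree - 1) ∨
        (∃ n : ℕ, β = Polynomial.Chebyshev.T ℝ n) ∨
        (β.natDegree = 3 ∧ ¬ ∃ b h e : ℝ, β = C b * (X - C h) ^ 3 + C e)) →
      ∃ b : GermGroup, PolyGerm β b ∧
        ∀ γ ∈ Subgroup.closure ({g | AffineGerm g} ∪ {b}),
          (FreeGenerators alpha γ ↔ ¬ AffineGerm γ) := by
  intro β hodd h3 hlc h
  apply polynomial_germs hodd h3 hlc
  rcases h with h | h | h | ⟨h, h'⟩
  · exact Or.inl h
  · exact Or.inr (Or.inl h)
  · exact Or.inr (Or.inr h)
  · exact admissible_cubic h h'
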